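import Pool.Agent.Helper60.FF.StmtsC

/-!
# FF, module P3
-/

set_option autoImplicit false

namespace Pool.Agent.Helper60.FF

open Polynomial

section p3

variable {p : ℕ} [hp : Fact p.Prime]

/-- the field generated by a root of an irreducible polynomial over a finite field -/
theorem p3_gen0 {F R : Type} [Field F] [Field R] [Algebra F R] [Finite F] (g₀ : Polynomial F)
    (hg : Irreducible g₀) (hm : g₀.Monic) (w : R) (hw : aeval w g₀ = 0) :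
    0 < g₀.natDegree ∧ ∃ S : Set R, S.Finite ∧ S.ncard = Nat.card F ^ g₀.natDegree ∧
      (∀ x, x ∈ S ↔ ∃ g : Polynomial F, aeval w g = x) ∧
      ∀ x ∈ S, x ^ (Nat.card F ^ g₀.natDegree) = x := by
  have hmin : minpoly F w = g₀ := (minpoly.eq_of_irreducible_of_monic hg hw hm).symm
  have hint : IsIntegral F w := ⟨g₀, hm, hw⟩
  have hdeg : 0 < g₀.natDegree := by
    rw [← hmin]
    exact minpoly.natDegree_pos hint
  have : FiniteDimensional F (IntermediateField.adjoin F {w}) :=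
    IntermediateField.adjoin.finiteDimensional hint
  have hfr : Module.finrank F (IntermediateField.adjoin F {w}) = g₀.natDegree := by
    rw [IntermediateField.adjoin.finrank hint, hmin]
  have hfin : Finite (IntermediateField.adjoin F {w}) := Module.finite_of_finite F
  have hc : Nat.card (IntermediateField.adjoin F {w}) = Nat.card F ^ g₀.natDegree := by
    rw [Module.natCard_eq_pow_finrank (K := F), hfr]
  refine ⟨hdeg, ((IntermediateField.adjoin F {w} : IntermediateField F R) : Set R), ?_, ?_, ?_, ?_⟩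
  · exact Set.toFinite _
  · rw [← hc, ← Nat.card_coe_set_eq]
    rfl
  · intro x
    have h2 : x ∈ ((IntermediateField.adjoin F {w} : IntermediateField F R) : Set R) ↔
        x ∈ (IntermediateField.adjoin F {w}).toSubalgebra := Iff.rfl
    rw [h2, IntermediateField.adjoin_simple_toSubalgebra_of_isAlgebraic hint.isAlgebraic,
      Algebra.adjoin_singleton_eq_range_aeval]
    exact Iff.rfl
  · intro x hx
    have h1 : (⟨x, hx⟩ : IntermediateField.adjoin F {w}) ^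
        Nat.card (IntermediateField.adjoin F {w}) = ⟨x, hx⟩ := by
      have : Fintype (IntermediateField.adjoin F {w}) := Fintype.ofFinite _
      rw [Nat.card_eq_fintype_card]
      exact FiniteField.pow_card _
    rw [hc] at h1
    exact congrArg Subtype.val h1

/-- elements of the finite field `Fq p (f₁ * deg w)` are polynomials in `w` over `Fq p f₁` -/
theorem p3_gen (hR : ST_RFA) {f₁ : ℕ} (hf₁ : 0 < f₁) (g₀ : Polynomial (Fq p f₁)) (hg : Irreducible g₀)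
    (hm : g₀.Monic) (w : RF p) (hw : aeval w g₀ = 0) :
    0 < g₀.natDegree ∧ w ∈ Fq p (f₁ * g₀.natDegree) ∧
      (∀ η ∈ Fq p (f₁ * g₀.natDegree), ∃ g : Polynomial (Fq p f₁), aeval w g = η) ∧
      ∀ g : Polynomial (Fq p f₁), aeval w g ∈ Fq p (f₁ * g₀.natDegree) := by
  obtain ⟨-, -, hcard, -⟩ := hR p
  have hfF : Finite (Fq p f₁) := (hcard f₁ hf₁).1
  obtain ⟨hdeg, S, hSf, hSc, hS, hSp⟩ := p3_gen0 g₀ hg hm w hw
  rw [(hcard f₁ hf₁).2, ← pow_mul] at hSc hSp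
  have hf : 0 < f₁ * g₀.natDegree := Nat.mul_pos hf₁ hdeg
  have hsub : S ⊆ (Fq p (f₁ * g₀.natDegree) : Set (RF p)) := fun x hx => hSp x hx
  have heq : S = (Fq p (f₁ * g₀.natDegree) : Set (RF p)) := by
    have hfin0 : Finite (Fq p (f₁ * g₀.natDegree)) := (hcard _ hf).1
    have hfin : (Fq p (f₁ * g₀.natDegree) : Set (RF p)).Finite := Set.toFinite _
    apply Set.eq_of_subset_of_ncard_le hsub _ hfin
    rw [hSc, ← Nat.card_coe_set_eq]
    exact (hcard _ hf).2.le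
  refine ⟨hdeg, hsub ((hS w).2 ⟨X, aeval_X w⟩), ?_, fun g => hsub ((hS _).2 ⟨g, rfl⟩)⟩
  intro η hη
  have h1 : η ∈ (Fq p (f₁ * g₀.natDegree) : Set (RF p)) := hη
  rw [← heq] at h1
  exact (hS η).1 h1

/-- residue of the value of an integral polynomial -/
theorem p3_res_eval (P : Polynomial ℂ_[p]) (hP : ∀ j, ‖P.coeff j‖ ≤ 1) {y : ℂ_[p]} (hy : ‖y‖ ≤ 1) :
    ‖P.eval y‖ ≤ 1 ∧ res (P.eval y) = (rd P).eval (res y) := by
  have h1 : P ∈ Polynomial.lifts (OO p).subtype := by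
    rw [Polynomial.lifts_iff_coeff_lifts]
    intro j
    exact ⟨⟨P.coeff j, hP j⟩, rfl⟩
  obtain ⟨P₀, hP₀⟩ := (Polynomial.mem_lifts P).1 h1
  have h2 : P.eval y = ((P₀.eval (⟨y, hy⟩ : OO p) : OO p) : ℂ_[p]) := by
    rw [← hP₀, eval_map]
    exact (Polynomial.eval₂_at_apply (OO p).subtype (⟨y, hy⟩ : OO p))
  have h3 : ‖P.eval y‖ ≤ 1 := by
    rw [h2]
    exact (P₀.eval (⟨y, hy⟩ : OO p)).2
  refine ⟨h3, ?_⟩
  have h4 : rd P = P₀.map (IsLocalRing.residue (OO p)) := by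
    ext j
    rw [coeff_rd, coeff_map, res_def (hP j)]
    have h6 : (⟨P.coeff j, hP j⟩ : OO p) = P₀.coeff j := by
      apply Subtype.ext
      change P.coeff j = ((P₀.coeff j : OO p) : ℂ_[p])
      rw [← hP₀, coeff_map]
      rfl
    rw [h6]
  have h5 : res (P.eval y) = IsLocalRing.residue (OO p) (P₀.eval (⟨y, hy⟩ : OO p)) := by
    rw [res_def h3]
    congr 1
    exact Subtype.ext h2
  rw [h5, h4, eval_map, res_def hy]
  exact (Polynomial.eval₂_at_apply (IsLocalRing.residue (OO p)) (⟨y, hy⟩ : OO p)).symm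

theorem p3_ov_nat (A : Subfield ℂ_[p]) (E : IntermediateField ℚ_[p] ℂ_[p]) (i : ℕ) :
    Ov A E ((i : ℕ) : RatFunc A) := by
  refine ⟨(i : Polynomial A), 1, one_ne_zero, ?_, ?_, ?_⟩
  · intro j
    rw [Polynomial.coeff_natCast_ite]
    split_ifs
    · exact natCast_mem E i
    · exact zero_mem E
  · intro j
    rw [Polynomial.coeff_one]
    split_ifs
    · exact one_mem E
    · exact zero_mem E
  · rw [map_one, mul_one, map_natCast]

/-- polynomials with coefficients in a subfield -/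
theorem p3_lift (F : Subfield (RF p)) (P : Polynomial (RF p)) (h : ∀ k, P.coeff k ∈ F) :
    ∃ P₀ : Polynomial F, P₀.map F.subtype = P := by
  have h1 : P ∈ Polynomial.lifts F.subtype := by
    rw [Polynomial.lifts_iff_coeff_lifts]
    intro j
    exact ⟨⟨P.coeff j, h j⟩, rfl⟩
  exact (Polynomial.mem_lifts P).1 h1

theorem p3_coeff_mem (F : Subfield (RF p)) (P₀ : Polynomial F) (k : ℕ) :
    (P₀.map F.subtype).coeff k ∈ F := by
  rw [coeff_map]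
  exact (P₀.coeff k).2

/-- values of `sp w T` at natural numbers -/
theorem p3_sp (T : Polynomial (Polynomial (RF p))) (w : RF p) (m : ℕ) :
    (sp w T).eval (m : RF p) = (T.eval (m : Polynomial (RF p))).eval w := by
  unfold sp
  rw [eval_map]
  have h := Polynomial.eval₂_at_apply (evalRingHom w) (m : Polynomial (RF p)) (p := T)
  rw [map_natCast] at h
  rw [h]
  rfl

theorem p3_aeval (F : Subfield (RF p)) (w : RF p) (g : Polynomial F) :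
    aeval w g = (g.map F.subtype).eval w := by
  rw [eval_map]
  rfl

/-- the values of `T` at natural numbers have coefficients in the subfield -/
theorem p3_lift_eval (F : Subfield (RF p)) (T : Polynomial (Polynomial (RF p)))
    (h : ∀ i j, (T.coeff i).coeff j ∈ F) (m : ℕ) :
    ∃ R₀ : Polynomial F, R₀.map F.subtype = T.eval (m : Polynomial (RF p)) := by
  apply (Polynomial.mem_lifts _).1
  rw [Polynomial.eval_eq_sum_range]
  apply Subsemiring.sum_mem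
  intro l _
  apply Subsemiring.mul_mem
  · rw [Polynomial.lifts_iff_coeff_lifts]
    intro j
    exact ⟨⟨_, h l j⟩, rfl⟩
  · apply Subsemiring.pow_mem
    exact natCast_mem (Polynomial.lifts F.subtype) m

/-- the local computation at one residue `w` -/
theorem p3_local {n : ℕ} (hRX : ST_RAMX) (hRD : ST_RDU) (hEV : ST_EVH) (K : KD p n) (a ϖ : K.A)
    (T : Polynomial (Polynomial (RF p))) (B : Set (RF p))
    (hEX : ∀ (E₁ : IntermediateField ℚ_[p] ℂ_[p]) (π₁ : ℂ_[p]) (f₁ : ℕ), LF E₁ π₁ f₁ → K.E₀ ≤ E₁ →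
      (a : ℂ_[p]) ∈ E₁ → (ϖ : ℂ_[p]) ∈ E₁ → ∀ (E : IntermediateField ℚ_[p] ℂ_[p]) (π : ℂ_[p])
      (f M : ℕ), LF E π f → E₁ ≤ E → 0 < M → 4 * n + 2 ∣ M → ‖π‖ ^ M = ‖π₁‖ → ∀ w ∈ Fq p f,
      w ∉ B → ∃ τ ∈ E, τ ∉ K.A ∧ ‖(τ - (a : ℂ_[p])) / (ϖ : ℂ_[p])‖ ≤ 1 ∧
        res ((τ - (a : ℂ_[p])) / (ϖ : ℂ_[p])) = w ∧ Red (K.χ τ) (sp w T))
    (E₁ : IntermediateField ℚ_[p] ℂ_[p]) (π₁ : ℂ_[p]) (f₁ : ℕ) (hLF : LF E₁ π₁ f₁)
    (hE₀ : K.E₀ ≤ E₁) (ha : (a : ℂ_[p]) ∈ E₁) (hϖE : (ϖ : ℂ_[p]) ∈ E₁) (N : ℕ) (hN : 0 < N)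
    (i j : ℕ) (s : ℤ) (P Q : Polynomial ℂ_[p])
    (hRx : Rdx E₁ (π₁ ^ s) (K.H N ((i : ℕ) : RatFunc K.A) / K.H N ((j : ℕ) : RatFunc K.A)) a ϖ P Q)
    (f : ℕ) (hf : 0 < f) (hff : f₁ ∣ f) (w : RF p) (hw : w ∈ Fq p f) (hwB : w ∉ B)
    (hTi : (T.eval (i : Polynomial (RF p))).eval w ≠ 0)
    (hTj : (T.eval (j : Polynomial (RF p))).eval w ≠ 0)
    (hPw : (rd P).eval w ≠ 0) (hQw : (rd Q).eval w ≠ 0) :
    ∃ ω ∈ Fq p f, (T.eval (i : Polynomial (RF p))).eval w * (rd Q).eval w =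
      (T.eval (j : Polynomial (RF p))).eval w * (rd P).eval w * ω ^ N := by
  have hM : 0 < (4 * n + 2) * N := Nat.mul_pos (by omega) hN
  obtain ⟨π, hπ⟩ := IsAlgClosed.exists_pow_nat_eq π₁ hM
  obtain ⟨E, hEE, hLE⟩ := hRX p E₁ π₁ f₁ hLF f ((4 * n + 2) * N) π hff hf hM hπ
  obtain ⟨τ, hτE, hτA, hy, hyw, hRed⟩ := hEX E₁ π₁ f₁ hLF hE₀ ha hϖE E π f ((4 * n + 2) * N) hLE hEE
    hM (Dvd.intro N rfl) (by rw [← norm_pow, hπ]) w hw hwB
  obtain ⟨-, -, -, -, hRD5⟩ := hRD p (K.χ τ)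
  have hi1 : ‖((i : ℕ) : ℂ_[p])‖ ≤ 1 := (mem_OO _).1 (natCast_mem (OO p) i)
  have hj1 : ‖((j : ℕ) : ℂ_[p])‖ ≤ 1 := (mem_OO _).1 (natCast_mem (OO p) j)
  have hφi : (sp w T).eval (res ((i : ℕ) : ℂ_[p])) = (T.eval (i : Polynomial (RF p))).eval w := by
    rw [res_natCast, p3_sp]
  have hφj : (sp w T).eval (res ((j : ℕ) : ℂ_[p])) = (T.eval (j : Polynomial (RF p))).eval w := by
    rw [res_natCast, p3_sp]
  obtain ⟨hxj, hn1, hres⟩ := hRD5 (sp w T) ((j : ℕ) : ℂ_[p]) ((i : ℕ) : ℂ_[p]) hRed hj1 hi1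
    (by rw [hφj]; exact hTj)
  obtain ⟨hxi, hn2, -⟩ := hRD5 (sp w T) ((i : ℕ) : ℂ_[p]) ((j : ℕ) : ℂ_[p]) hRed hi1 hj1
    (by rw [hφi]; exact hTi)
  rw [hφi, hφj] at hres
  obtain ⟨e, he, -, -, -, -⟩ := hEV p K.A K.acl τ hτA
  have hei : ev K.A τ ((i : ℕ) : RatFunc K.A) = ((i : ℕ) : ℂ_[p]) := by
    rw [← he, map_natCast]
  have hej : ev K.A τ ((j : ℕ) : RatFunc K.A) = ((j : ℕ) : ℂ_[p]) := by
    rw [← he, map_natCast]
  obtain ⟨W, hWE, hW0, hW⟩ := K.kum E hLE.fin (hE₀.trans hEE) ((i : ℕ) : RatFunc K.A)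
    ((j : ℕ) : RatFunc K.A) (p3_ov_nat K.A E i) (p3_ov_nat K.A E j) τ hτE hτA N hN
    (by rw [hei]; exact hxi) (by rw [hej]; exact hxj)
  rw [hei, hej] at hW
  obtain ⟨hPy, hQy, hPQ⟩ := hRx.eq τ hτA
  rw [← he, map_div₀, he, he] at hPQ
  have hHi : ev K.A τ (K.H N ((i : ℕ) : RatFunc K.A)) ≠ 0 := by
    rw [← he]
    exact (map_ne_zero e).2 (K.H0 N _ hN)
  have hHj : ev K.A τ (K.H N ((j : ℕ) : RatFunc K.A)) ≠ 0 := by
    rw [← he]
    exact (map_ne_zero e).2 (K.H0 N _ hN)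
  obtain ⟨hPn, hPr⟩ := p3_res_eval P (fun l => (hRx.cP l).2) hy
  obtain ⟨hQn, hQr⟩ := p3_res_eval Q (fun l => (hRx.cQ l).2) hy
  rw [hyw] at hPr hQr
  have hP1 : ‖P.eval ((τ - (a : ℂ_[p])) / (ϖ : ℂ_[p]))‖ = 1 := by
    rw [norm_eq_one_iff hPn, hPr]
    exact hPw
  have hQ1 : ‖Q.eval ((τ - (a : ℂ_[p])) / (ϖ : ℂ_[p]))‖ = 1 := by
    rw [norm_eq_one_iff hQn, hQr]
    exact hQw
  set xi := (K.χ τ).eval ((i : ℕ) : ℂ_[p]) with hxi_def
  set xj := (K.χ τ).eval ((j : ℕ) : ℂ_[p]) with hxj_def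
  set Hi := ev K.A τ (K.H N ((i : ℕ) : RatFunc K.A)) with hHi_def
  set Hj := ev K.A τ (K.H N ((j : ℕ) : RatFunc K.A)) with hHj_def
  set Py := P.eval ((τ - (a : ℂ_[p])) / (ϖ : ℂ_[p])) with hPy_def
  set Qy := Q.eval ((τ - (a : ℂ_[p])) / (ϖ : ℂ_[p])) with hQy_def
  have hπ0 : π ≠ 0 := norm_pos_iff.1 hLE.pos
  have hV : π₁ ^ s = (π ^ (((4 * n + 2 : ℕ) : ℤ) * s)) ^ N := by
    rw [← hπ, ← zpow_natCast, ← zpow_natCast, ← zpow_mul, ← zpow_mul]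
    congr 1
    push_cast
    ring
  have hmain : xi / xj * Qy = Py * (π ^ (((4 * n + 2 : ℕ) : ℤ) * s) * W) ^ N := by
    have h1 : xi / xj = Hi / Hj * W ^ N := by
      rw [div_mul_eq_mul_div, div_eq_div_iff hxj hHj, hW]
      ring
    rw [h1, mul_pow, ← hV]
    calc Hi / Hj * W ^ N * Qy = (Hi / Hj * Qy) * W ^ N := by ring
      _ = (π₁ ^ s * Py) * W ^ N := by rw [hPQ]
      _ = Py * (π₁ ^ s * W ^ N) := by ring
  have hq1 : ‖xi / xj‖ = 1 := by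
    rw [norm_div, le_antisymm hn1 hn2, div_self (norm_ne_zero_iff.2 hxj)]
  have hVn : ‖π ^ (((4 * n + 2 : ℕ) : ℤ) * s) * W‖ = 1 := by
    have h1 := congrArg norm hmain
    rw [norm_mul, norm_mul, hq1, hQ1, hP1, one_mul, one_mul, norm_pow] at h1
    exact (pow_eq_one_iff_of_nonneg (norm_nonneg _) hN.ne').1 h1.symm
  have hVE : π ^ (((4 * n + 2 : ℕ) : ℤ) * s) * W ∈ E := mul_mem (zpow_mem hLE.mem _) hWE
  refine ⟨res (π ^ (((4 * n + 2 : ℕ) : ℤ) * s) * W), hLE.rs _ hVE hVn.le, ?_⟩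
  have h2 := congrArg res hmain
  rw [res_mul hq1.le hQ1.le, res_mul hP1.le (by rw [norm_pow, hVn, one_pow]), res_pow hVn.le, hres,
    hPr, hQr, div_mul_eq_mul_div, div_eq_iff hTj] at h2
  rw [h2]
  ring

end p3

theorem st_P3 (hEXI : ST_EXI) (hEL : ST_ELEM) (hRX : ST_RAMX) (hRF : ST_RFA) (hRD : ST_RDU)
    (hEV : ST_EVH) : ST_P3 := by
  intro p n _ hPP K a ϖ hϖ T hTP hTC E₁ π₁ f₁ hLF hE₀ ha hϖE N hN hNd i j hTi hTj s P Q hRx
  obtain ⟨B, hB, hEX⟩ := hEXI p n hPP K a ϖ hϖ T hTP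
  obtain ⟨hac, hun, hcard, hle⟩ := hRF p
  have hfinF : Finite (Fq p f₁) := (hcard f₁ hLF.fpos).1
  have hcF : Nat.card (Fq p f₁) = p ^ f₁ := (hcard f₁ hLF.fpos).2
  obtain ⟨T₁, hT₁⟩ := p3_lift_eval (Fq p f₁) T (hTC E₁ π₁ f₁ hLF hE₀ ha hϖE) i
  obtain ⟨T₂, hT₂⟩ := p3_lift_eval (Fq p f₁) T (hTC E₁ π₁ f₁ hLF hE₀ ha hϖE) j
  obtain ⟨P₀, hP₀⟩ := p3_lift (Fq p f₁) (rd P) (fun k => by
    rw [coeff_rd]
    exact hLF.rs _ (hRx.cP k).1 (hRx.cP k).2)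
  obtain ⟨Q₀, hQ₀⟩ := p3_lift (Fq p f₁) (rd Q) (fun k => by
    rw [coeff_rd]
    exact hLF.rs _ (hRx.cQ k).1 (hRx.cQ k).2)
  have hT₁0 : T₁ ≠ 0 := by
    rintro rfl
    rw [Polynomial.map_zero] at hT₁
    exact hTi hT₁.symm
  have hT₂0 : T₂ ≠ 0 := by
    rintro rfl
    rw [Polynomial.map_zero] at hT₂
    exact hTj hT₂.symm
  have hP₀0 : P₀ ≠ 0 := by
    rintro rfl
    rw [Polynomial.map_zero] at hP₀
    exact hRx.rP hP₀.symm
  have hQ₀0 : Q₀ ≠ 0 := by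
    rintro rfl
    rw [Polynomial.map_zero] at hQ₀
    exact hRx.rQ hQ₀.symm
  have hf₀ : T₁ * Q₀ * (T₂ * P₀) ^ (N - 1) ≠ 0 :=
    mul_ne_zero (mul_ne_zero hT₁0 hQ₀0) (pow_ne_zero _ (mul_ne_zero hT₂0 hP₀0))
  have hD : T₁ * T₂ * P₀ * Q₀ ≠ 0 :=
    mul_ne_zero (mul_ne_zero (mul_ne_zero hT₁0 hT₂0) hP₀0) hQ₀0
  have hDm : (T₁ * T₂ * P₀ * Q₀).map (Fq p f₁).subtype ≠ 0 :=
    (Polynomial.map_ne_zero_iff (Fq p f₁).subtype.injective).2 hD
  have hex : {g₀ : Polynomial (Fq p f₁) | g₀.Monic ∧ Irreducible g₀ ∧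
      ¬ ∃ g : Polynomial (Fq p f₁), g₀ ∣ T₁ * Q₀ * (T₂ * P₀) ^ (N - 1) - g ^ N}.Finite := by
    have hfin : (B ∪ {w : RF p | ((T₁ * T₂ * P₀ * Q₀).map (Fq p f₁).subtype).IsRoot w}).Finite :=
      hB.union (Polynomial.finite_setOfPred_isRoot hDm)
    refine (hfin.image (fun w => minpoly (Fq p f₁) w)).subset ?_
    rintro g₀ ⟨hm, hirr, hno⟩
    have hdeg : (g₀.map (Fq p f₁).subtype).degree ≠ 0 := by
      rw [Polynomial.degree_map]
      exact hirr.degree_pos.ne'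
    obtain ⟨w, hw⟩ := IsAlgClosed.exists_root (g₀.map (Fq p f₁).subtype) hdeg
    have hw' : aeval w g₀ = 0 := by
      rw [p3_aeval]
      exact hw
    have hmin : minpoly (Fq p f₁) w = g₀ := (minpoly.eq_of_irreducible_of_monic hirr hw' hm).symm
    refine ⟨w, ?_, hmin⟩
    by_contra hnot
    rw [Set.mem_union, not_or] at hnot
    obtain ⟨hwB, hwD⟩ := hnot
    apply hno
    have hwD' : ((T₁ * T₂ * P₀ * Q₀).map (Fq p f₁).subtype).eval w ≠ 0 := hwD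
    rw [Polynomial.map_mul, Polynomial.map_mul, Polynomial.map_mul, eval_mul, eval_mul, eval_mul,
      hT₁, hT₂, hP₀, hQ₀] at hwD'
    obtain ⟨h123, h4⟩ := mul_ne_zero_iff.1 hwD'
    obtain ⟨h12, h3⟩ := mul_ne_zero_iff.1 h123
    obtain ⟨h1, h2⟩ := mul_ne_zero_iff.1 h12
    obtain ⟨hd, hwF, hgen, hin⟩ := p3_gen hRF hLF.fpos g₀ hirr hm w hw'
    obtain ⟨ω, hω, hωe⟩ := p3_local hRX hRD hEV K a ϖ T B hEX E₁ π₁ f₁ hLF hE₀ ha hϖE N hN i j s P Q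
      hRx (f₁ * g₀.natDegree) (Nat.mul_pos hLF.fpos hd) (Dvd.intro _ rfl) w hwF hwB h1 h2 h3 h4
    have e1 : aeval w T₁ = (T.eval (i : Polynomial (RF p))).eval w := by rw [p3_aeval, hT₁]
    have e2 : aeval w T₂ = (T.eval (j : Polynomial (RF p))).eval w := by rw [p3_aeval, hT₂]
    have e3 : aeval w P₀ = (rd P).eval w := by rw [p3_aeval, hP₀]
    have e4 : aeval w Q₀ = (rd Q).eval w := by rw [p3_aeval, hQ₀]
    obtain ⟨g, hg⟩ := hgen (aeval w T₂ * aeval w P₀ * ω) (mul_mem (mul_mem (hin _) (hin _)) hω)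
    refine ⟨g, ?_⟩
    rw [← hmin]
    apply minpoly.dvd
    rw [map_sub, map_mul, map_mul, map_pow, map_pow, map_mul, hg, sub_eq_zero, e1, e2, e3, e4, hωe]
    obtain ⟨N', rfl⟩ : ∃ N', N = N' + 1 := ⟨N - 1, by omega⟩
    rw [Nat.add_sub_cancel]
    ring
  have hfF : Fintype (Fq p f₁) := Fintype.ofFinite _
  obtain ⟨G, hG⟩ := @hEL (Fq p f₁) _ hfF N hN (by
    rw [← Nat.card_eq_fintype_card, hcF]
    exact hNd) _ hf₀ hex
  have hG0 : G ≠ 0 := by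
    rintro rfl
    rw [zero_pow hN.ne'] at hG
    exact hf₀ hG
  refine ⟨G.map (Fq p f₁).subtype, (T₂ * P₀).map (Fq p f₁).subtype, ?_, ?_, p3_coeff_mem _ _,
    p3_coeff_mem _ _, ?_⟩
  · exact (Polynomial.map_ne_zero_iff (Fq p f₁).subtype.injective).2 hG0
  · exact (Polynomial.map_ne_zero_iff (Fq p f₁).subtype.injective).2 (mul_ne_zero hT₂0 hP₀0)
  · rw [← hT₁, ← hT₂, ← hP₀, ← hQ₀, ← Polynomial.map_pow, ← Polynomial.map_pow, ← Polynomial.map_mul,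
      ← Polynomial.map_mul, ← Polynomial.map_mul, ← Polynomial.map_mul]
    congr 1
    rw [← hG]
    obtain ⟨N', rfl⟩ : ∃ N', N = N' + 1 := ⟨N - 1, by omega⟩
    rw [Nat.add_sub_cancel]
    ring

end Pool.Agent.Helper60.FF
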