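import Pool.Agent.Helper24.FF.Stmts

/-! Full list for MP_866009_co, table: an entry gives a configuration. -/

set_option autoImplicit false

namespace Pool.Agent.Helper24.FF

open Pool.Agent.Helper64.CT Pool.Agent.Helper64.DT Pool.Agent.Helper64.FL
open Pool.Agent.Helper64.HG (Ovl Model Circ IC HellyCircle ChordModel)

theorem tmd_sg (n : ℕ) : ∀ l : List (ℕ × ℕ), sgT n l =
    l.map (fun p => (⟨p.1, p.2, clr (clr (Nat.pred (Nat.shiftLeft 1 n)) p.1) p.2⟩ : Seg)) := by
  intro l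
  induction l with
  | nil => rfl
  | cons p l ih =>
    obtain ⟨a, b⟩ := p
    simp only [sgT, ih, List.map_cons]

theorem st_TMD (hTBS : ST_TBS) (hTOK : ST_TOK) (hTBN : ST_TBN) : ST_TMD := by
  intro V G T f P hRW hn hrg hel
  obtain ⟨k1, -, -, k4, -⟩ := hTOK T
  obtain ⟨k5, -⟩ := k4 hel
  obtain ⟨-, -, -, -, -, -, -, t8, t9, -⟩ := hTBS
  have hsym : ∀ i j l, memp i j l = memp j i l := by
    intro i j l
    rw [Bool.eq_iff_iff, k1, k1]
    exact or_comm
  have hne : ∀ i j, i < T.n → j < T.n → i ≠ j → f i ≠ f j := by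
    intro i j hi hj hij
    rcases Nat.lt_or_gt_of_ne hij with h | h
    · exact (hRW.nm i j h hj).1
    · exact (hRW.nm j i h hi).1.symm
  have hadj : ∀ i j, i < T.n → j < T.n → i ≠ j → memp i j T.el = false →
      (G.Adj (f i) (f j) ↔ memp i j T.rg = true) := by
    intro i j hi hj hij he
    rcases Nat.lt_or_gt_of_ne hij with h | h
    · exact (hRW.nm i j h hj).2 he
    · rw [G.adj_comm, hsym i j]
      exact (hRW.nm j i h hi).2 (by rw [hsym]; exact he)
  have hdisj : ∀ i j, memp i j T.rg = true → memp i j T.el = false := by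
    intro i j h
    rw [← Bool.not_eq_true]
    intro hc
    rw [k1] at hc
    rcases hc with hc | hc
    · obtain ⟨e, he⟩ := List.mem_iff_getElem?.1 hc
      have := (k5 e i j he).2.2.2.2.2.2
      rw [h] at this
      exact absurd this (by simp)
    · obtain ⟨e, he⟩ := List.mem_iff_getElem?.1 hc
      have := (k5 e j i he).2.2.2.2.2.2
      rw [hsym, h] at this
      exact absurd this (by simp)
  let g : (ℕ × ℕ) × ℕ → Seg × List V := fun q =>
    (⟨q.1.1, q.1.2, clr (clr (Nat.pred (Nat.shiftLeft 1 T.n)) q.1.1) q.1.2⟩, P q.2)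
  have hL : ∀ p ∈ (T.el.zipIdx).map g, ∃ e a b, T.el[e]? = some (a, b) ∧ p = g ((a, b), e) := by
    intro p hp
    obtain ⟨q, hq, rfl⟩ := List.mem_map.1 hp
    rw [List.mem_zipIdx_iff_getElem?] at hq
    exact ⟨q.2, q.1.1, q.1.2, hq, rfl⟩
  refine ⟨(T.el.zipIdx).map g, ?_⟩
  refine
    { n32 := hn
      alive := fun i hi => hi
      inj := ?_
      adj := ?_
      nad := ?_
      map := ?_
      bnd := ?_
      pth := ?_
      dis := ?_
      cln := ?_
      sep := ?_ }
  · intro i j hi hj h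
    by_contra hc
    exact hne i j hi hj hc h
  · intro i j hi hj h
    obtain ⟨h1, h2, h3⟩ := (hTBN T hn hrg i j hi hj).1 h
    refine ⟨h1, h2, fun hij => ?_⟩
    exact (hadj i j h1 h2 hij (hdisj i j (h3 hij))).2 (h3 hij)
  · intro i j hi hj h
    obtain ⟨h1, h2, h3⟩ := (hTBN T hn hrg i j hi hj).2 h
    refine ⟨h1, h2, fun hij => ?_⟩
    have h4 := h3 hij
    simp only [adT, Bool.or_eq_false_iff] at h4
    rw [hadj i j h1 h2 hij h4.2, h4.1]
    simp
  · show ((T.el.zipIdx).map g).map Prod.fst = sgT T.n T.el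
    rw [tmd_sg, List.map_map]
    have : (Prod.fst ∘ g) = (fun p : ℕ × ℕ =>
        (⟨p.1, p.2, clr (clr (Nat.pred (Nat.shiftLeft 1 T.n)) p.1) p.2⟩ : Seg)) ∘ Prod.fst := rfl
    rw [this, ← List.map_map, List.zipIdx_map_fst]
  · intro p hp
    obtain ⟨e, a, b, he, rfl⟩ := hL p hp
    obtain ⟨h1, h2, h3, -⟩ := hRW.pth e a b he
    exact ⟨h1, h2, h3⟩
  · intro p hp
    obtain ⟨e, a, b, he, rfl⟩ := hL p hp
    obtain ⟨h1, h2, h3, h4, -⟩ := hRW.pth e a b he
    exact h4
  · intro p hp x hx i hi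
    obtain ⟨e, a, b, he, rfl⟩ := hL p hp
    obtain ⟨h1, h2, h3, h4, h5⟩ := hRW.pth e a b he
    exact (h5 x hx i hi).1
  · intro p hp i hi
    obtain ⟨e, a, b, he, rfl⟩ := hL p hp
    obtain ⟨h1, h2, h3, h4, h5⟩ := hRW.pth e a b he
    simp only [g, t8, t9, Bool.and_eq_true, decide_eq_true_eq, Bool.not_eq_true',
      decide_eq_false_iff_not] at hi
    obtain ⟨⟨hi1, hi2⟩, hi3⟩ := hi
    refine ⟨hi1, fun h => hi2 h.symm, fun h => hi3 h.symm, ?_⟩
    intro x hx hc
    exact (h5 x hx i hi1).2 (fun h => hi2 h.symm) (fun h => hi3 h.symm) hc.symm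
  · rw [List.pairwise_iff_getElem]
    intro i j hi hj hij
    simp only [List.length_map, List.length_zipIdx] at hi hj
    intro x hx y hy
    simp only [List.getElem_map, List.getElem_zipIdx, g, Nat.zero_add] at hx hy
    exact hRW.sep i j hij hj x hx y hy

end Pool.Agent.Helper24.FF
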